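import Pool.Agent.Lib.MP_e3f158_nt.TT.Defs
import Pool.Agent.Lib.MP_e3f158_nt.TT.Cover
import Pool.Agent.Lib.MP_dd84fd_nt.LX.LMn
import Pool.Agent.Lib.MP_dd84fd_nt.LX.SvFam
import Pool.Agent.Lib.MP_dd84fd_nt.LX.NLh
import Pool.Agent.Lib.MP_dd84fd_nt.IY.CW

/-!
# MP_e3f158_nt, Theorem T: `covS`

`CovS` from `cov_t`, the minorant of Theorem L (`LX/SvFam`) and its density (`numL`).
-/

set_option autoImplicit false

namespace Pool.Agent.Lib.MP_e3f158_nt.TT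

open Finset Filter Pool.MP_67663b_nt.Odd Pool.MP_dd84fd_nt.En Pool.MP_dd84fd_nt.E2
  Pool.MP_dd84fd_nt.LS Pool.MP_dd84fd_nt.GX Pool.MP_dd84fd_nt.HX
open Pool.MP_dd84fd_nt.IX (W1 MajI cfI fI WI)
open Pool.MP_dd84fd_nt.JX (Adm DecJ)
open Pool.MP_dd84fd_nt.KX (lK)
open Pool.MP_dd84fd_nt.LX (PhU AdmX amL bmL amF decL bdL tyL numL NumLA phU_co wty_AB)
open Pool.MP_dd84fd_nt.IY (bI X5 pI)
open Pool.MP_dd84fd_nt
open Pool.Agent.Lib.MP_e3f158_nt.U

private theorem w1_ev (B' K0 : ℕ) (hK : 1 ≤ K0) (W : ℕ → Finset ℕ → ℝ) (X1 : ℕ)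
    (hW : ∀ X, X1 ≤ X → ∀ T, |W X T| ≤ K0) :
    W1 K0 (B' + 3) (fun X => IY.wty (IY.kp B' X) X (W X))
      (fun X => IY.gty (IY.kp B' X) X (W X)) := by
  obtain ⟨X0, h⟩ := IY.w1_i B' K0 hK (fun X => if X1 ≤ X then W X else fun _ => 0) (by
    intro X T
    by_cases hX : X1 ≤ X
    · simp only [hX, if_true]
      exact hW X hX T
    · simp only [hX, if_false, abs_zero]
      exact Nat.cast_nonneg _)
  refine ⟨max X0 X1, fun X hX => ?_⟩
  have h1 := h X ((le_max_left _ _).trans hX)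
  have h2 : X1 ≤ X := (le_max_right _ _).trans hX
  simp only [h2, if_true] at h1
  exact h1

private theorem majI_ev (B' K0 : ℕ) (W : ℕ → Finset ℕ → ℝ) (X1 : ℕ)
    (hW : ∀ X, X1 ≤ X → ∀ T, |W X T| ≤ K0) :
    MajI (fun X => IY.wty (IY.kp B' X) X (W X))
      (fun X => IY.gty (IY.kp B' X) X (W X)) := by
  have h0 := IY.majI_i B' K0 (fun X => if X1 ≤ X then W X else fun _ => 0) (by
    intro X T
    by_cases hX : X1 ≤ X
    · simp only [hX, if_true]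
      exact hW X hX T
    · simp only [hX, if_false, abs_zero]
      exact Nat.cast_nonneg _)
  intro A B
  obtain ⟨D0, h⟩ := h0 A B
  refine ⟨D0, fun D' hD' => ?_⟩
  obtain ⟨X0, h⟩ := h D' hD'
  refine ⟨max X0 X1, fun X hX θ hθ => ?_⟩
  have h1 := h X ((le_max_left _ _).trans hX) θ hθ
  have h2 : X1 ≤ X := (le_max_right _ _).trans hX
  unfold WI fI at h1 ⊢
  simp only [h2, if_true] at h1
  exact h1

open Classical in
theorem cvv_ind (n : ℕ) (R : Finset ℕ) (hR : ∀ r ∈ R, 1 ≤ r) (F : ℕ → ℝ) :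
    cvv (fun r => if r ∈ R then (1 : ℝ) else 0) F n = ∑ r ∈ R.filter (fun r => r < n), F (n - r) := by
  unfold cvv
  have h1 : R.filter (fun r => r < n) = (Icc 1 (n - 1)).filter (fun r => r ∈ R) := by
    ext r
    rw [mem_filter, mem_filter, mem_Icc]
    constructor
    · rintro ⟨ha, hb⟩
      exact ⟨⟨hR r ha, by omega⟩, ha⟩
    · rintro ⟨⟨ha, hb⟩, hc⟩
      exact ⟨hc, by omega⟩
  rw [h1, sum_filter]
  refine sum_congr rfl fun r _ => ?_
  show (if r ∈ R then (1 : ℝ) else 0) * F (n - r) = _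
  by_cases hr : r ∈ R
  · rw [if_pos hr, if_pos hr, one_mul]
  · rw [if_neg hr, if_neg hr, zero_mul]

open Classical in
theorem vbh_ind (X G : ℕ) [NeZero G] (hG : X < G) (b : ℕ → ℝ)
    (hb : ∀ n, |b n| ≤ 1) : VBH G X 0 (tr G X b) := by
  have hX0 : (0 : ℝ) ≤ X := Nat.cast_nonneg _
  constructor
  · rw [pow_zero, mul_one]
    unfold nm2
    rw [parseval G X hG]
    have h : ∀ n ∈ Icc 1 X, b n ^ 2 ≤ 1 := by
      intro n _
      rw [sq_le_one_iff_abs_le_one]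
      exact hb n
    refine (sum_le_card_nsmul _ _ _ h).trans (le_of_eq ?_)
    rw [Nat.card_Icc, nsmul_eq_mul, Nat.add_sub_cancel, mul_one]
  · intro j
    rw [pow_zero, mul_one, tr_ee]
    have h : ∀ n ∈ Icc 1 X, ‖(b n : ℂ) * ee ((n : ℝ) * al G j)‖ ≤ 1 := by
      intro n _
      rw [norm_mul, norm_ee, mul_one, Complex.norm_real, Real.norm_eq_abs]
      exact hb n
    refine (norm_sum_le _ _).trans ((sum_le_card_nsmul _ _ _ h).trans (le_of_eq ?_))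
    rw [Nat.card_Icc, nsmul_eq_mul, Nat.add_sub_cancel, mul_one]

/-- the density of the minorant is `≥ 2/5` -/
private theorem dens (a th : ℝ) (h1 : 1 / 5 < th) (h2 : th < 1 / 3)
    (h : (1 - a) * (1 - a) < 4 * (1 - 3 * th) ^ 3) : 2 / 5 ≤ a := by
  by_contra hcon
  push Not at hcon
  have e1 : 0 ≤ 1 - 3 * th := by linarith
  have e2 : 1 - 3 * th ≤ 2 / 5 := by linarith
  have e3 : (1 - 3 * th) ^ 3 ≤ (2 / 5) ^ 3 := pow_le_pow_left₀ e1 e2 3
  nlinarith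

open Classical in
theorem covS : CovS := by
  intro A K θ κ hθ1 hθ2 hκ
  obtain ⟨B, hB⟩ := cov_t A 0
  obtain ⟨B0, hB0⟩ := decL B
  obtain ⟨B', hB'0, hB'1⟩ : ∃ B' : ℕ, B0 ≤ B' ∧ 1 ≤ B' :=
    ⟨max B0 1, le_max_left _ _, le_max_right _ _⟩
  obtain ⟨C2, hCs⟩ := hB0 B' hB'0
  obtain ⟨th, hthd⟩ : ∃ th : ℝ, th = (1 / 5 + θ) / 2 := ⟨_, rfl⟩
  have hth : 1 / 5 < th := by rw [hthd]; linarith
  have hth2 : th < 1 / 3 := by rw [hthd]; linarith
  have hthθ : th ≤ θ := by rw [hthd]; linarith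
  obtain ⟨τ0, a, b, hτ0, ha, ha1, hb1, hl, hu, hnum⟩ := numL th hth hth2
  have ha2 : 2 / 5 ≤ a := dens a th hth hth2 hl
  obtain ⟨τ, hτ⟩ : ∃ τ : ℝ, τ = min τ0 (min ((th - 1 / 5) / 16) ((1 / 3 - th) / 16)) := ⟨_, rfl⟩
  have t0 : 0 < τ := by
    rw [hτ]
    exact lt_min hτ0 (lt_min (by linarith) (by linarith))
  have t1 : τ ≤ τ0 := by rw [hτ]; exact min_le_left _ _
  have t2 : τ ≤ (th - 1 / 5) / 16 := by
    rw [hτ]; exact (min_le_right _ _).trans (min_le_left _ _)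
  have t3 : τ ≤ (1 / 3 - th) / 16 := by
    rw [hτ]; exact (min_le_right _ _).trans (min_le_right _ _)
  obtain ⟨e, he⟩ : ∃ e : ℝ, e = τ / 1000 := ⟨_, rfl⟩
  have he0 : 0 < e := by rw [he]; positivity
  have hAK : AdmX th e τ := ⟨hth, hth2, he0, by rw [he]; linarith, by linarith, by linarith⟩
  have hA : Adm th e τ := hAK.adm
  obtain ⟨d1, -, -⟩ := hCs th e τ hAK
  obtain ⟨Xb, hXb⟩ := bdL hAK B'
  have bA : ∀ X : ℕ, Xb ≤ X → ∀ T : Finset ℕ,
      |amL τ (bI th e) (lK th τ) (IY.kp B' X) X T| ≤ ((2 ^ 24 : ℕ) : ℝ) :=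
    fun X hX T => (hXb X hX T).1.trans (by norm_num)
  have hwA := w1_ev B' (2 ^ 24) (by norm_num)
    (fun X => amL τ (bI th e) (lK th τ) (IY.kp B' X) X) Xb bA
  have hmA := majI_ev B' (2 ^ 24)
    (fun X => amL τ (bI th e) (lK th τ) (IY.kp B' X) X) Xb bA
  obtain ⟨D0, hD0⟩ := hB (2 ^ 24) (B' + 3) C2 K κ hκ th e τ hA _ _ hwA d1 hmA
  refine ⟨D0, fun D' hD' => ?_⟩
  obtain ⟨X1, h1⟩ := hD0 D' hD'
  obtain ⟨X2, h2⟩ := tyL hAK B' hB'1
  obtain ⟨X3, h3⟩ := wty_AB B' hB'1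
  obtain ⟨X4, h4⟩ := hnum e τ hAK t1 B' hB'1
  obtain ⟨X6, h6⟩ := IY.X5_ge
  obtain ⟨X7, h7⟩ := MP_log_large 2
  obtain ⟨δ, hδ⟩ : ∃ δ : ℝ, δ = th - 1 / 5 - 3 * e := ⟨_, rfl⟩
  have hδ0 : 0 < δ := by rw [hδ, he]; linarith
  obtain ⟨X8, h8⟩ := MP_log_pow 256 0 (ε := δ) hδ0
  refine ⟨max (max (max X1 X2) (max X3 X4)) (max (max X6 X7) (max X8 2)),
    fun X hX R hR hR6 => ?_⟩
  simp only [max_le_iff] at hX
  obtain ⟨⟨⟨g1, g2⟩, g3, g4⟩, ⟨g6, g7⟩, g8, g9⟩ := hX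
  have hX1 : 1 ≤ X := by omega
  have hXr : (1 : ℝ) ≤ X := by exact_mod_cast hX1
  have hX0 : (0 : ℝ) < X := by linarith
  have hL := h7 X g7
  have hpw := h8 X g8
  rw [pow_zero, mul_one] at hpw
  obtain ⟨hz, -⟩ := h6 X g6
  have hX5 : (1 : ℝ) ≤ X5 X := by
    have : (0 : ℝ) ≤ (IY.zt X : ℝ) := Nat.cast_nonneg _
    linarith
  have hG5 : 2 * X < X ^ 5 := by
    have e2 : 2 ^ 4 ≤ X ^ 4 := Nat.pow_le_pow_left g9 4
    calc 2 * X < X ^ 4 * X := Nat.mul_lt_mul_of_pos_right (by omega) (by omega)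
      _ = X ^ 5 := by ring
  have : NeZero (X ^ 5) := ⟨by omega⟩
  let bb : ℕ → ℝ := fun r => if r ∈ R then (1 : ℝ) else 0
  have hbb : ∀ n, |bb n| ≤ 1 := by
    intro n
    show |if n ∈ R then (1 : ℝ) else 0| ≤ 1
    split_ifs <;> simp
  obtain ⟨PP, p1, p2, p3⟩ := h1 X g1 (X ^ 5) le_rfl (tr (X ^ 5) X bb)
    (vbh_ind X (X ^ 5) (by omega) bb hbb)
    ((Icc 1 X).filter fun n => X ≤ 3 * n ∧ RA R n + X / (Real.log X) ^ A <
        2 / 5 * Rz (wX D' X) R n) (filter_subset _ _) (by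
    intro n hn
    rw [mem_filter, mem_Icc] at hn
    obtain ⟨⟨n1, n2⟩, n3, n4⟩ := hn
    rw [phU_co (X ^ 5) X hG5 bb _ n n2, Complex.norm_real, Real.norm_eq_abs]
    by_contra hcon
    push Not at hcon
    have c1 := (abs_le.1 hcon).1
    rw [cvv_ind n R (fun r hr => (mem_Icc.1 (hR hr)).1)] at c1
    have c2 : ∑ r ∈ R.filter (fun r => r < n), cfI (fun X => IY.wty (IY.kp B' X) X
          (amL τ (bI th e) (lK th τ) (IY.kp B' X) X)) (fun X => IY.gty (IY.kp B' X) X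
          (amL τ (bI th e) (lK th τ) (IY.kp B' X) X)) (-1) (wX D' X) X (n - r) ≤
        RA R n - 2 / 5 * Rz (wX D' X) R n := by
      unfold RA Rz
      rw [mul_sum, ← sum_sub_distrib]
      refine sum_le_sum fun r hr => ?_
      rw [mem_filter] at hr
      have r1 := hR6 r hr.1
      obtain ⟨m, hm⟩ : ∃ m : ℕ, m = n - r := ⟨_, rfl⟩
      rw [← hm]
      have m1 : m ≤ X := by omega
      have m2 : X ≤ 6 * m := by omega
      have m3 : X5 X < m := by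
        have q1 : (X : ℝ) ≤ 6 * m := by exact_mod_cast m2
        unfold X5
        rw [div_lt_iff₀ (by positivity)]
        have q2 : (2 : ℝ) ^ 5 ≤ (Real.log X) ^ 5 := pow_le_pow_left₀ (by norm_num) hL 5
        have q3 : (0 : ℝ) < m := by linarith
        nlinarith
      have hlm : 0 < Real.log (m : ℝ) := Real.log_pos (lt_of_le_of_lt hX5 m3)
      obtain ⟨v1, -⟩ := h3 X g3 _ _ (h2 X g2) m
      obtain ⟨v2, -⟩ := h4 X g4 m m3 m1
      have v3 : pI X m ≤ if m.Prime then (1 : ℝ) else 0 := by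
        unfold pI
        by_cases hp : m.Prime
        · rw [if_pos hp]
          split_ifs <;> norm_num
        · rw [if_neg hp, if_neg (fun h => hp h.2.2)]
      have v4 : 0 ≤ f1 (wX D' X) m := f1_nonneg _ _
      have v5 : 2 / 5 * f2 (wX D' X) m ≤ IY.gty (IY.kp B' X) X
          (amL τ (bI th e) (lK th τ) (IY.kp B' X) X) m * f1 (wX D' X) m := by
        unfold f2
        have w1 : 2 / 5 / Real.log m ≤ IY.gty (IY.kp B' X) X
            (amL τ (bI th e) (lK th τ) (IY.kp B' X) X) m := by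
          rw [div_le_iff₀ hlm]
          linarith
        calc 2 / 5 * (f1 (wX D' X) m / Real.log m) = 2 / 5 / Real.log m * f1 (wX D' X) m := by ring
          _ ≤ _ := mul_le_mul_of_nonneg_right w1 v4
      unfold cfI fI
      linarith
    linarith)
  refine ⟨PP, fun p hp => ?_, p2, p3.trans ?_⟩
  · obtain ⟨q1, q2, q3, q4⟩ := p1 p hp
    have e0 : 0 < (X : ℝ) ^ (1 - th + 3 * e) := by positivity
    have e1 : (X : ℝ) ^ (4 / 5 : ℝ) = (X : ℝ) ^ (1 - th + 3 * e) * (X : ℝ) ^ δ := by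
      rw [← Real.rpow_add hX0]
      congr 1
      rw [hδ]
      ring
    have e2 : (X : ℝ) ^ (th - 3 * e) = (X : ℝ) ^ (1 / 5 : ℝ) * (X : ℝ) ^ δ := by
      rw [← Real.rpow_add hX0]
      congr 1
      rw [hδ]
      ring
    have e3 : 0 < (X : ℝ) ^ (1 / 5 : ℝ) := by positivity
    refine ⟨q1, q2.trans ?_, le_trans ?_ q3, q4⟩
    · rw [e1]
      nlinarith
    · rw [e2]
      nlinarith
  · exact Real.rpow_le_rpow_of_exponent_le hXr (by linarith)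

end Pool.Agent.Lib.MP_e3f158_nt.TT
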