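import Pool.Agent.Lib.MP_e3f158_nt.TP.Exc

/-!
# MP_e3f158_nt, Theorem T: exponent `1/5` for types `(a, 0)`, definitions

`CovS`: for an ARBITRARY set `R ⊆ [1, X/6]`: outside few thin progressions and outside `X^θ` integers,
`θ > 1/5`, the number of representations `n = r + prime`, `r ∈ R`, is at least `2/5` of the prediction,
up to `X/(log X)^A`.
-/

set_option autoImplicit false

namespace Pool.Agent.Lib.MP_e3f158_nt.TT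

open Finset Filter Pool.MP_dd84fd_nt.E2 Pool.MP_dd84fd_nt.GX Pool.Agent.Lib.MP_e3f158_nt.U

open Classical in
def CovS : Prop := ∀ (A K : ℕ) (θ κ : ℝ), 1 / 5 < θ → θ < 1 / 3 → 0 < κ → ∃ D0 : ℕ,
  ∀ D' : ℕ, D0 ≤ D' → ∃ X0 : ℕ, ∀ X : ℕ, X0 ≤ X → ∀ R : Finset ℕ, R ⊆ Icc 1 X →
    (∀ r ∈ R, 6 * r ≤ X) → ∃ PP : Finset (ℤ × ℕ × ℕ),
      (∀ p ∈ PP, 1 ≤ p.2.1 ∧ (p.2.1 : ℝ) ≤ (X : ℝ) ^ (4 / 5 : ℝ) / 4 ∧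
        4 * (X : ℝ) ^ (1 / 5 : ℝ) ≤ (p.2.2 : ℝ) ∧ (p.2.2 : ℝ) ≤ X / (Real.log X) ^ K) ∧
      ∑ p ∈ PP, ((p.2.2 : ℝ) / X) ^ κ ≤ 1 / Real.log X ∧
      ((((Icc 1 X).filter fun n => X ≤ 3 * n ∧ RA R n + X / (Real.log X) ^ A <
        2 / 5 * Rz (wX D' X) R n).filter fun n => ∀ p ∈ PP, ¬ apm p n).card : ℝ) ≤ (X : ℝ) ^ θ

end Pool.Agent.Lib.MP_e3f158_nt.TT
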