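import Pool.Agent.Lib.MP_e3f158_nt.TP.Even
import Pool.Agent.Lib.MP_e3f158_nt.TP.Exc

/-!
# MP_e3f158_nt, Theorem T: even integers, from Theorem L (helper33)
-/

set_option autoImplicit false

namespace Pool.Agent.Lib.MP_e3f158_nt.TT

open Finset Filter Pool.MP_dd84fd_nt.En Pool.MP_dd84fd_nt.E2 Pool.MP_dd84fd_nt.LS
open Pool.MP_dd84fd_nt.GX Pool.Agent.Lib.MP_e3f158_nt

/-- Theorem L (the statement of `Pool.MP_dd84fd_nt.LX.fin_l`) -/
def FinLS : Prop := ∃ C : ℕ, ∀ θ ε : ℝ,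
    1 / 5 ≤ θ → θ < 1 / 3 → 0 < ε → ∀ K : ℕ, ∃ X0 : ℕ, ∀ X : ℕ, X0 ≤ X → ∃ D : Finset ℕ,
      (D.card : ℝ) ≤ (Real.log X) ^ C ∧
      (∀ d ∈ D, (Real.log X) ^ K ≤ (d : ℝ) ∧ (d : ℝ) ≤ (X : ℝ) ^ (1 - θ)) ∧
      ∀ P : ℕ → Prop, ∀ _ : DecidablePred P,
        (∀ n, P n → Even n ∧ (∀ d ∈ D, (d : ℝ) ≤ (n : ℝ) ^ (1 - θ) → ¬ d ∣ n) ∧
          4 * (1 - 3 * θ) ^ 3 * (SS n * JJ n) < |(g n : ℝ) - SS n * JJ n|) →
        (((Finset.Icc 1 X).filter P).card : ℝ) ≤ (X : ℝ) ^ (θ + ε)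

theorem g_le_one {n : ℕ} (h : ¬ HasRep 0 0 n) : Pool.MP_dd84fd_nt.En.g n ≤ 1 := by
  unfold Pool.MP_dd84fd_nt.En.g
  rw [card_le_one]
  have key : ∀ p ∈ (range (n + 1)).filter (fun p => Nat.Prime p ∧ Nat.Prime (n - p)),
      2 * p = n := by
    intro p hp
    rw [mem_filter, mem_range] at hp
    obtain ⟨hpn, h1, h2⟩ := hp
    obtain ⟨x, hx, hxp⟩ := G.LG_prime h1
    obtain ⟨y, hy, hyp⟩ := G.LG_prime h2
    by_contra hne
    apply h
    refine ⟨x, y, hx, hy, ?_, ?_⟩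
    · rw [hxp, hyp]; omega
    · rw [hxp, hyp]; omega
  intro p hp p' hp'
  have h1 := key p hp
  have h2 := key p' hp'
  omega

theorem JJ_big (n X : ℕ) (hn : 4 ≤ n) (hnX : n ≤ X) :
    ((n : ℝ) - 3) / (Real.log X) ^ 2 ≤ JJ n := by
  unfold JJ
  have h1 : ∀ m ∈ Icc 2 (n - 2), 1 / (Real.log X) ^ 2 ≤
      1 / (Real.log (m : ℝ) * Real.log ((n - m : ℕ) : ℝ)) := by
    intro m hm
    rw [mem_Icc] at hm
    have h2 : (2 : ℝ) ≤ m := by exact_mod_cast hm.1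
    have h3 : (2 : ℝ) ≤ ((n - m : ℕ) : ℝ) := by exact_mod_cast (by omega : 2 ≤ n - m)
    have h4 : (m : ℝ) ≤ X := by exact_mod_cast (by omega : m ≤ X)
    have h5 : ((n - m : ℕ) : ℝ) ≤ X := by exact_mod_cast (by omega : n - m ≤ X)
    have h6 : 0 < Real.log m := Real.log_pos (by linarith)
    have h7 : 0 < Real.log ((n - m : ℕ) : ℝ) := Real.log_pos (by linarith)
    have h8 : Real.log m ≤ Real.log X := Real.log_le_log (by linarith) h4
    have h9 : Real.log ((n - m : ℕ) : ℝ) ≤ Real.log X := Real.log_le_log (by linarith) h5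
    rw [pow_two]
    gcongr
  have h2 := card_nsmul_le_sum (Icc 2 (n - 2)) _ _ h1
  rw [Nat.card_Icc, nsmul_eq_mul] at h2
  refine le_trans (le_of_eq ?_) h2
  have h3 : ((n - 2 + 1 - 2 : ℕ) : ℝ) = (n : ℝ) - 3 := by
    have : n - 2 + 1 - 2 = n - 3 := by omega
    rw [this, Nat.cast_sub (by omega)]
    norm_num
  rw [h3]
  ring

/-- `SS n JJ n` is large -/
theorem SJ_big : ∀ᶠ N : ℕ in atTop, ∀ n : ℕ, N < n → n ≤ 2 * N → 2 < SS n * JJ n := by
  have hC := C2_pos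
  have hpow : ∀ᶠ N : ℕ in atTop, (Real.log N) ^ 2 ≤ C2 / 16 * (N : ℝ) := by
    have h1 : (fun x : ℝ => (Real.log x) ^ 2) =o[atTop] (fun x : ℝ => x) :=
      Real.isLittleO_pow_log_id_atTop
    have h2 := h1.bound (c := C2 / 16) (by positivity)
    have h3 := tendsto_natCast_atTop_atTop.eventually h2
    filter_upwards [h3, eventually_ge_atTop 1] with N hN hN1
    have hN0 : (1 : ℝ) ≤ N := by exact_mod_cast hN1
    have hl : 0 ≤ Real.log N := Real.log_nonneg hN0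
    rw [Real.norm_of_nonneg (by positivity), Real.norm_of_nonneg (by positivity)] at hN
    linarith
  filter_upwards [hpow, eventually_ge_atTop 8] with N hN h8 n hn1 hn2
  have hJ := JJ_big n (2 * N) (by omega) hn2
  have hS := SS_ge n
  have h8' : (8 : ℝ) ≤ N := by exact_mod_cast h8
  have hn1' : (N : ℝ) ≤ n := by exact_mod_cast hn1.le
  have hlN : 0 < Real.log N := Real.log_pos (by linarith)
  have hl2 : Real.log ((2 * N : ℕ) : ℝ) ≤ 2 * Real.log N := by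
    have h1 : Real.log ((N : ℝ) ^ 2) = 2 * Real.log N := by rw [Real.log_pow]; norm_num
    rw [← h1]
    push_cast
    exact Real.log_le_log (by linarith) (by nlinarith)
  have hl0 : 0 < Real.log ((2 * N : ℕ) : ℝ) := Real.log_pos (by push_cast; linarith)
  have h1 : (Real.log ((2 * N : ℕ) : ℝ)) ^ 2 ≤ C2 / 4 * N := by
    calc (Real.log ((2 * N : ℕ) : ℝ)) ^ 2 ≤ (2 * Real.log N) ^ 2 := by gcongr
      _ = 4 * (Real.log N) ^ 2 := by ring
      _ ≤ 4 * (C2 / 16 * N) := by linarith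
      _ = C2 / 4 * N := by ring
  have h2 : (N : ℝ) / 2 ≤ n - 3 := by linarith
  have h3 : 2 / C2 ≤ JJ n := by
    refine le_trans ?_ hJ
    calc 2 / C2 = (N / 2) / (C2 / 4 * N) := by
          field_simp
          norm_num
      _ ≤ (N / 2) / (Real.log ((2 * N : ℕ) : ℝ)) ^ 2 := by gcongr
      _ ≤ _ := by gcongr
  have h4 : 2 * C2 * (2 / C2) ≤ SS n * JJ n :=
    mul_le_mul hS h3 (by positivity) (by linarith)
  have h5 : 2 * C2 * (2 / C2) = 4 := by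
    field_simp
    norm_num
  linarith

/-- the elementary inequalities -/
theorem evL_scale (C0 K' : ℕ) (θL κ : ℝ) (h1 : 1 / 5 < θL) :
    ∀ᶠ N : ℕ in atTop, 1 ≤ N ∧ (1 : ℝ) ≤ Real.log N ∧ (3 : ℝ) ≤ Real.log (3 * N : ℕ) ∧
      ((3 * N : ℕ) : ℝ) ^ (1 - θL) ≤ (N : ℝ) ^ (4 / 5 : ℝ) ∧
      (3 : ℝ) ^ κ ≤ Real.log (3 * N : ℕ) ∧ 0 ≤ (C0 : ℝ) + K' := by
  have hlog : Tendsto (fun N : ℕ => Real.log (N : ℝ)) atTop atTop :=
    Real.tendsto_log_atTop.comp tendsto_natCast_atTop_atTop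
  have h3N : Tendsto (fun N : ℕ => 3 * N) atTop atTop :=
    tendsto_id.const_mul_atTop' (by norm_num)
  have hlog3 : Tendsto (fun N : ℕ => Real.log ((3 * N : ℕ) : ℝ)) atTop atTop := hlog.comp h3N
  have hp : ∀ᶠ x : ℝ in atTop, (3 : ℝ) ^ (1 - θL) ≤ x ^ (θL - 1 / 5) :=
    (tendsto_rpow_atTop (by linarith)).eventually_ge_atTop _
  filter_upwards [hlog.eventually_ge_atTop 1, hlog3.eventually_ge_atTop 3,
    tendsto_natCast_atTop_atTop.eventually hp, hlog3.eventually_ge_atTop ((3 : ℝ) ^ κ),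
    eventually_ge_atTop 1] with N f1 f2 f3 f4 f5
  have hN : (1 : ℝ) ≤ N := by exact_mod_cast f5
  refine ⟨f5, f1, f2, ?_, f4, by positivity⟩
  push_cast
  rw [Real.mul_rpow (by norm_num) (by linarith)]
  calc (3 : ℝ) ^ (1 - θL) * (N : ℝ) ^ (1 - θL) ≤ (N : ℝ) ^ (θL - 1 / 5) * (N : ℝ) ^ (1 - θL) := by
        gcongr
    _ = (N : ℝ) ^ (4 / 5 : ℝ) := by
        rw [← Real.rpow_add (by linarith)]
        congr 1
        ring

open Classical in
theorem evenL (hL : FinLS) (K : ℕ) (th κ : ℝ) (h1 : 1 / 5 < th) (h2 : th < 1 / 3) (hκ : 0 < κ) :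
    ∀ᶠ N : ℕ in atTop, ∃ PP : Finset (ℤ × ℕ × ℕ),
      (∀ p ∈ PP, 1 ≤ p.2.1 ∧ (p.2.1 : ℝ) ≤ (N : ℝ) ^ (4 / 5 : ℝ) ∧
        (N : ℝ) ^ (1 / 5 : ℝ) ≤ (p.2.2 : ℝ) ∧ (p.2.2 : ℝ) ≤ N / (Real.log N) ^ K) ∧
      ∑ p ∈ PP, ((p.2.2 : ℝ) / N) ^ κ ≤ 1 / Real.log (3 * N : ℕ) ∧
      (((Icc 1 (3 * N)).filter fun n => N < n ∧ n ≤ 2 * N ∧ Even n ∧ ¬ HasRep 0 0 n ∧
        ∀ p ∈ PP, ¬ apm p n).card : ℝ) ≤ ((3 * N : ℕ) : ℝ) ^ th := by
  obtain ⟨C0, hC0⟩ := hL
  obtain ⟨θL, hθL⟩ : ∃ t : ℝ, t = (1 / 5 + th) / 2 := ⟨_, rfl⟩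
  have t1 : 1 / 5 < θL := by rw [hθL]; linarith
  have t2 : θL < th := by rw [hθL]; linarith
  obtain ⟨K', hK'⟩ : ∃ k : ℕ, k = max (K + 1) ⌈((C0 : ℝ) + 3) / κ⌉₊ := ⟨_, rfl⟩
  have k1 : K + 1 ≤ K' := by rw [hK']; exact le_max_left _ _
  have k2 : (C0 : ℝ) + 3 ≤ κ * K' := by
    have h3 : ((C0 : ℝ) + 3) / κ ≤ K' := by
      refine (Nat.le_ceil _).trans ?_
      rw [hK']
      exact_mod_cast le_max_right _ _
    rw [div_le_iff₀ hκ] at h3
    linarith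
  obtain ⟨X0, hX0⟩ := hC0 θL (th - θL) t1.le (by linarith) (by linarith) K'
  filter_upwards [evL_scale C0 K' θL κ t1, SJ_big, eventually_ge_atTop X0] with N s f1 f2
  obtain ⟨s1, s2, s3, s4, s5, -⟩ := s
  obtain ⟨D, d1, d2, d3⟩ := hX0 (3 * N) (by omega)
  have hN : (1 : ℝ) ≤ N := by exact_mod_cast s1
  have hN0 : (0 : ℝ) < N := by linarith
  have hlogle : Real.log N ≤ Real.log (3 * N : ℕ) :=
    Real.log_le_log (by linarith) (by push_cast; linarith)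
  generalize hM : Real.log ((3 * N : ℕ) : ℝ) = M at s3 s5 d1 d2 hlogle ⊢
  have hM0 : 0 < M := by linarith
  have hM1 : 1 ≤ M := by linarith
  -- facts about `d`
  have hd : ∀ d ∈ D, 1 ≤ d ∧ (d : ℝ) ≤ (N : ℝ) ^ (4 / 5 : ℝ) ∧
      (N : ℝ) ^ (1 / 5 : ℝ) ≤ ((2 * N / d + 1 : ℕ) : ℝ) ∧
      ((2 * N / d + 1 : ℕ) : ℝ) ≤ 3 * N / d := by
    intro d hd
    obtain ⟨e1, e2⟩ := d2 d hd
    have e3 : (1 : ℝ) ≤ d := (one_le_pow₀ hM1).trans e1
    have e4 : 1 ≤ d := by exact_mod_cast e3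
    have e5 : (d : ℝ) ≤ (N : ℝ) ^ (4 / 5 : ℝ) := e2.trans s4
    have e6 : (N : ℝ) ^ (4 / 5 : ℝ) ≤ N := by
      calc (N : ℝ) ^ (4 / 5 : ℝ) ≤ (N : ℝ) ^ (1 : ℝ) :=
            Real.rpow_le_rpow_of_exponent_le hN (by norm_num)
        _ = N := Real.rpow_one _
    have e7 : (N : ℝ) = (N : ℝ) ^ (1 / 5 : ℝ) * (N : ℝ) ^ (4 / 5 : ℝ) := by
      rw [← Real.rpow_add hN0]
      norm_num
    have hd0 : (0 : ℝ) < d := by linarith
    refine ⟨e4, e5, ?_, ?_⟩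
    · have e8 : (2 * N : ℝ) / d < ((2 * N / d + 1 : ℕ) : ℝ) := by
        have h9 := Nat.lt_div_mul_add (a := 2 * N) (b := d) e4
        rw [div_lt_iff₀ hd0]
        have h10 : 2 * N < (2 * N / d + 1) * d := by
          calc 2 * N < 2 * N / d * d + d := h9
            _ = (2 * N / d + 1) * d := by ring
        exact_mod_cast h10
      refine le_trans ?_ e8.le
      rw [le_div_iff₀ hd0]
      have : (N : ℝ) ^ (1 / 5 : ℝ) * d ≤ (N : ℝ) ^ (1 / 5 : ℝ) * (N : ℝ) ^ (4 / 5 : ℝ) := by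
        gcongr
      rw [← e7] at this
      linarith
    · push_cast
      have e8 : ((2 * N / d : ℕ) : ℝ) ≤ ((2 * N : ℕ) : ℝ) / (d : ℕ) := Nat.cast_div_le
      push_cast at e8
      have e9 : 1 ≤ (N : ℝ) / d := by
        rw [le_div_iff₀ hd0]
        linarith
      have e10 : 3 * (N : ℝ) / d = 2 * N / d + N / d := by ring
      linarith
  obtain ⟨PP, hPP⟩ : ∃ P : Finset (ℤ × ℕ × ℕ), P = D.image fun d => ((0 : ℤ), d, 2 * N / d + 1) :=
    ⟨_, rfl⟩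
  refine ⟨PP, ?_, ?_, ?_⟩
  · intro p hp
    rw [hPP, mem_image] at hp
    obtain ⟨d, hdD, rfl⟩ := hp
    obtain ⟨e1, e2, e3, e4⟩ := hd d hdD
    refine ⟨e1, e2, e3, e4.trans ?_⟩
    have e5 := (d2 d hdD).1
    have e6 : 3 * (Real.log N) ^ K ≤ (d : ℝ) := by
      refine le_trans ?_ e5
      calc 3 * (Real.log N) ^ K ≤ M * M ^ K := by gcongr
        _ = M ^ (K + 1) := by ring
        _ ≤ M ^ K' := pow_le_pow_right₀ hM1 k1
    have hd0 : (0 : ℝ) < d := by exact_mod_cast e1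
    have hl0 : 0 < Real.log N := by linarith
    rw [div_le_div_iff₀ hd0 (by positivity)]
    calc 3 * (N : ℝ) * Real.log N ^ K = N * (3 * Real.log N ^ K) := by ring
      _ ≤ N * d := by gcongr
  · rw [hPP, sum_image (fun d _ d' _ h => by
      rw [Prod.mk.injEq, Prod.mk.injEq] at h
      exact h.2.1)]
    have h3 : ∀ d ∈ D, (((2 * N / d + 1 : ℕ) : ℝ) / N) ^ κ ≤ (3 : ℝ) ^ κ / M ^ (C0 + 3) := by
      intro d hdD
      obtain ⟨e1, e2, e3, e4⟩ := hd d hdD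
      have hd0 : (0 : ℝ) < d := by exact_mod_cast e1
      have e5 : ((2 * N / d + 1 : ℕ) : ℝ) / N ≤ 3 / M ^ K' := by
        rw [div_le_iff₀ hN0]
        refine e4.trans ?_
        rw [div_mul_eq_mul_div]
        exact div_le_div_of_nonneg_left (by positivity) (by positivity) (d2 d hdD).1
      calc (((2 * N / d + 1 : ℕ) : ℝ) / N) ^ κ ≤ (3 / M ^ K') ^ κ := by gcongr
        _ = 3 ^ κ / M ^ (κ * K') := by
            rw [Real.div_rpow (by norm_num) (by positivity), ← Real.rpow_natCast M K',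
              ← Real.rpow_mul hM0.le, mul_comm (K' : ℝ) κ]
        _ ≤ 3 ^ κ / M ^ ((C0 : ℝ) + 3) := by
            have := Real.rpow_le_rpow_of_exponent_le hM1 k2
            gcongr
        _ = 3 ^ κ / M ^ (C0 + 3) := by
            congr 1
            rw [← Real.rpow_natCast]
            push_cast
            rfl
    have h4 : ∑ d ∈ D, (((2 * N / d + 1 : ℕ) : ℝ) / N) ^ κ ≤
        (D.card : ℝ) * ((3 : ℝ) ^ κ / M ^ (C0 + 3)) := by
      have := sum_le_card_nsmul D _ _ h3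
      rwa [nsmul_eq_mul] at this
    refine h4.trans ?_
    calc (D.card : ℝ) * ((3 : ℝ) ^ κ / M ^ (C0 + 3)) ≤ M ^ C0 * (M / M ^ (C0 + 3)) := by
          gcongr
      _ = 1 / M ^ 2 := by
          rw [pow_add]
          field_simp
      _ ≤ 1 / M := by
          have : M ≤ M ^ 2 := by nlinarith
          gcongr
  · have h3 := d3 (fun n => N < n ∧ n ≤ 2 * N ∧ Even n ∧ ¬ HasRep 0 0 n ∧ ∀ p ∈ PP, ¬ apm p n)
      inferInstance (by
        rintro n ⟨n1, n2, n3, n4, n5⟩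
        refine ⟨n3, ?_, ?_⟩
        · intro d hdD _ hdn
          obtain ⟨i, hi⟩ := hdn
          refine n5 (0, d, 2 * N / d + 1) ?_ ⟨i, ?_, ?_⟩
          · rw [hPP]
            exact mem_image_of_mem _ hdD
          · show i < 2 * N / d + 1
            have e1 := (hd d hdD).1
            have : i ≤ 2 * N / d := by
              rw [Nat.le_div_iff_mul_le (by omega)]
              calc i * d = n := by rw [hi]; ring
                _ ≤ 2 * N := n2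
            omega
          · show (n : ℤ) = 0 + i * (d : ℤ)
            rw [hi]
            push_cast
            ring
        · have e1 := f1 n n1 n2
          have e2 : (g n : ℝ) ≤ 1 := by exact_mod_cast g_le_one n4
          generalize SS n * JJ n = Y at e1 ⊢
          have e3 : (1 - 3 * θL) ^ 3 ≤ (2 / 5) ^ 3 := by
            apply pow_le_pow_left₀ (by linarith) (by linarith)
          have e4 : 4 * (1 - 3 * θL) ^ 3 * Y ≤ 4 * (2 / 5) ^ 3 * Y := by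
            gcongr
          rw [abs_sub_comm]
          refine lt_of_lt_of_le ?_ (le_abs_self _)
          norm_num at e4
          linarith)
    rw [show θL + (th - θL) = th by ring] at h3
    exact h3

end Pool.Agent.Lib.MP_e3f158_nt.TT
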