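import Pool.Agent.Lib.MP_e3f158_nt.TP.Every
import Pool.Agent.Lib.MP_e3f158_nt.TP.Exc

/-!
# MP_e3f158_nt, Theorem T: `a`-primes `r ≤ X/6` (helper33)
-/

set_option autoImplicit false

namespace Pool.Agent.Lib.MP_e3f158_nt.TT

open Finset Filter Pool.MP_dd84fd_nt.E2 Pool.MP_dd84fd_nt.En Pool.Agent.Lib.MP_e3f158_nt
  Pool.Agent.Lib.MP_e3f158_nt.G Pool.Agent.Lib.MP_e3f158_nt.U Pool.Agent.Lib.MP_e3f158_nt.TP

open Classical in
/-- the good `a`-primes `r ≤ X/6` -/
noncomputable def goodH (a z X n : ℕ) : Finset ℕ := (good a z n).filter fun r => 6 * r ≤ X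

open Classical in
/-- the `a`-primes up to `X/6` -/
noncomputable def SH (a X : ℕ) : Finset ℕ :=
  (Icc 1 X).filter fun r => 6 * r ≤ X ∧ ∃ x : ℕ, 1 ≤ x ∧ ipr a x = r

theorem SH_sub (a X : ℕ) : SH a X ⊆ Icc 1 X := by
  classical
  unfold SH
  exact filter_subset _ _

theorem SH_le {a X r : ℕ} (hr : r ∈ SH a X) : 6 * r ≤ X := by
  classical
  unfold SH at hr
  rw [mem_filter] at hr
  exact hr.2.1

open Classical in
theorem RA_le_H {a N n : ℕ} (h : ¬ HasRep a 0 n) : RA (SH a N) n ≤ 1 := by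
  refine le_trans ?_ (LG_RA_le (N := N) h)
  unfold U.RA
  refine sum_le_sum_of_subset_of_nonneg ?_ fun _ _ _ => ?_
  · intro r hr
    unfold SH at hr
    rw [mem_filter, mem_filter] at hr
    rw [mem_filter, mem_filter]
    exact ⟨⟨hr.1.1, hr.1.2.2⟩, hr.2⟩
  · split_ifs <;> norm_num

open Classical in
theorem Rz_ge_H {a z n N : ℕ} (hn : n ≤ N) :
    ((goodH a z N n).card : ℝ) / Real.log N ≤ Rz z (SH a N) n := by
  unfold U.Rz
  have hsub : goodH a z N n ⊆ (SH a N).filter fun r => r < n := by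
    intro r hr
    unfold goodH good at hr
    rw [mem_filter, mem_filter, mem_Icc] at hr
    unfold SH
    rw [mem_filter, mem_filter, mem_Icc]
    exact ⟨⟨⟨hr.1.1.1, by omega⟩, hr.2, hr.1.2.1⟩, by omega⟩
  calc ((goodH a z N n).card : ℝ) / Real.log N = ∑ r ∈ goodH a z N n, 1 / Real.log N := by
        rw [sum_const, nsmul_eq_mul]; ring
    _ ≤ ∑ r ∈ goodH a z N n, f2 z (n - r) := by
        refine sum_le_sum fun r hr => ?_
        unfold goodH good at hr
        rw [mem_filter, mem_filter, mem_Icc] at hr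
        exact LG_f2_ge (by omega) (by omega) hr.1.2.2.2
    _ ≤ _ := sum_le_sum_of_subset_of_nonneg hsub fun r _ _ => LG_f2_nonneg _ _

theorem exc_H (B : ℕ) : ∀ᶠ X : ℕ in atTop, ∀ a z n : ℕ, n ≤ X → ¬ HasRep a 0 n →
    (X : ℝ) / (Real.log X) ^ B ≤ ((goodH a z X n).card : ℝ) →
    RA (SH a X) n + (X : ℝ) / (Real.log X) ^ (B + 2) < 2 / 5 * Rz z (SH a X) n := by
  have hlog : ∀ᶠ N : ℕ in atTop, (10 : ℝ) ≤ Real.log N :=
    (Real.tendsto_log_atTop.comp tendsto_natCast_atTop_atTop).eventually_ge_atTop 10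
  have hpow : ∀ᶠ N : ℕ in atTop, 10 * (Real.log N) ^ (B + 1) ≤ (N : ℝ) := by
    have h1 : (fun x : ℝ => (Real.log x) ^ (B + 1)) =o[atTop] (fun x : ℝ => x) :=
      Real.isLittleO_pow_log_id_atTop
    have h2 := h1.bound (c := 1 / 10) (by norm_num)
    have h3 := tendsto_natCast_atTop_atTop.eventually h2
    filter_upwards [h3, eventually_ge_atTop 1] with N hN hN1
    have hN0 : (1 : ℝ) ≤ N := by exact_mod_cast hN1
    have hl : 0 ≤ Real.log N := Real.log_nonneg hN0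
    rw [Real.norm_of_nonneg (by positivity), Real.norm_of_nonneg (by positivity)] at hN
    linarith
  filter_upwards [hlog, hpow, eventually_ge_atTop 1] with X hL hP hX1 a z n hn hrep hg
  have h2 : RA (SH a X) n ≤ 1 := RA_le_H hrep
  have h3 := Rz_ge_H (a := a) (z := z) (n := n) (N := X) hn
  generalize Real.log (X : ℝ) = L at hL hP hg h3 ⊢
  have hX0 : (0 : ℝ) < X := by exact_mod_cast hX1
  have hL0 : 0 < L := by linarith
  have h4 : (X : ℝ) / L ^ (B + 1) ≤ Rz z (SH a X) n := by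
    refine le_trans ?_ h3
    rw [pow_succ, ← div_div]
    gcongr
  have h5 : (10 : ℝ) ≤ (X : ℝ) / L ^ (B + 1) := by
    rw [le_div_iff₀ (by positivity)]
    exact hP
  have h6 : (X : ℝ) / L ^ (B + 2) ≤ (X : ℝ) / L ^ (B + 1) / 10 := by
    have e : L ^ (B + 2) = L ^ (B + 1) * L := by rw [← pow_succ]
    rw [e, ← div_div]
    gcongr
  linarith

open Classical in
/-- Finite form: a window all of whose integers have few good `a`-primes `≤ y` -/
theorem gaps_step_H (a z x H y X : ℕ) (thr : ℝ) (hy : 6 * y ≤ X) (hyx : y < x)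
    (hg : ∀ n ∈ Ioc x (x + H), ((goodH a z X n).card : ℝ) < thr) :
    (pic (a + 1) y : ℝ) - H * thr ≤
      (((aP a y).filter fun r => r < x ∧
        ∀ h ∈ Icc 1 H, ¬ Nat.Coprime ((x - r) + h) (primorial z)).card : ℝ) := by
  set F := (aP a y).filter fun r => r < x ∧
        ∀ h ∈ Icc 1 H, ¬ Nat.Coprime ((x - r) + h) (primorial z) with hF
  have hsub : aP a y ⊆ F ∪ (Icc 1 H).biUnion fun h => goodH a z X (x + h) := by
    intro r hr
    obtain ⟨h1, h2, y', hy', hyr⟩ := mem_aP hr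
    rw [mem_union, mem_biUnion]
    have hlt : r < x := by omega
    by_cases hc : ∀ h ∈ Icc 1 H, ¬ Nat.Coprime ((x - r) + h) (primorial z)
    · exact Or.inl (mem_filter.2 ⟨hr, hlt, hc⟩)
    · right
      push Not at hc
      obtain ⟨h, hh, hcop⟩ := hc
      refine ⟨h, hh, ?_⟩
      rw [mem_Icc] at hh
      unfold goodH good
      rw [mem_filter, mem_filter, mem_Icc]
      refine ⟨⟨⟨h2.pos, by omega⟩, ⟨y', hy', hyr⟩, by omega, ?_⟩, by omega⟩
      have e : x + h - r = (x - r) + h := by omega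
      rw [e]
      exact hcop
  have h1 := (card_le_card hsub).trans (card_union_le _ _)
  have h4 : (((Icc 1 H).biUnion fun h => goodH a z X (x + h)).card : ℝ) ≤ H * thr := by
    have h5 : ((Icc 1 H).biUnion fun h => goodH a z X (x + h)).card ≤
        ∑ h ∈ Icc 1 H, (goodH a z X (x + h)).card := card_biUnion_le
    have h6 : ∑ h ∈ Icc 1 H, ((goodH a z X (x + h)).card : ℝ) ≤ ∑ h ∈ Icc 1 H, thr := by
      refine sum_le_sum fun h hh => ?_
      rw [mem_Icc] at hh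
      exact (hg (x + h) (mem_Ioc.2 ⟨by omega, by omega⟩)).le
    rw [sum_const, Nat.card_Icc, Nat.add_sub_cancel, nsmul_eq_mul] at h6
    refine le_trans ?_ h6
    exact_mod_cast h5
  rw [card_aP] at h1
  have h3 : (pic (a + 1) y : ℝ) ≤
      (F.card : ℝ) + (((Icc 1 H).biUnion fun h => goodH a z X (x + h)).card : ℝ) := by
    exact_mod_cast h1
  linarith

open Classical in
theorem few_bad_H (a z x y N H : ℕ) (hx : x ≤ N) :
    (((aP a y).filter fun r => r < x ∧
        ∀ h ∈ Icc 1 H, ¬ Nat.Coprime ((x - r) + h) (primorial z)).card : ℝ) ≤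
      (((range (N + 1)).filter fun m => ∀ h ∈ Icc 1 H,
      ¬ Nat.Coprime (m + h) (primorial z)).card : ℝ) := by
  norm_cast
  refine card_le_card_of_injOn (fun r => x - r) ?_ ?_
  · intro r hr
    rw [mem_coe, mem_filter] at hr
    rw [mem_coe, mem_filter, mem_range]
    exact ⟨by show x - r < N + 1; omega, hr.2.2⟩
  · intro r hr r' hr' h
    rw [mem_coe, mem_filter] at hr hr'
    have h1 := hr.2.1
    have h2 := hr'.2.1
    have h3 : x - r = x - r' := h
    omega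

theorem goodH_odd {a z X n : ℕ} (hz : 2 ≤ z) (hn : ¬ Even n) : (goodH a z X n).card ≤ 1 :=
  (card_filter_le _ _).trans (good_odd hz hn)

/-- There is an absolute `K` such that for all large `X` EVERY window `(x, x + (log log X)^K]` with
`X/4 ≤ x`, contained in `[1, X]`, contains an even `n` with at least `X/(log X)^(a+4)` good
`a`-primes `≤ X/6`. -/
theorem every_H : ∃ K : ℕ, ∀ a D : ℕ, 1 ≤ D → ∀ᶠ X : ℕ in atTop, ∀ x : ℕ, X ≤ 4 * x →
    x + ⌊(Real.log (Real.log X)) ^ K⌋₊ ≤ X →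
    ∃ n ∈ Ioc x (x + ⌊(Real.log (Real.log X)) ^ K⌋₊), Even n ∧
      (X : ℝ) / (Real.log X) ^ (a + 4) ≤ ((goodH a (wX D X) X n).card : ℝ) := by
  classical
  obtain ⟨K, hK⟩ := rough_gap
  refine ⟨K, fun a D hD => ?_⟩
  have h1 := hK (a + 4) D hD
  obtain ⟨n1, hn1⟩ := eventually_atTop.1 (pic_ge (a + 1))
  have hlog : Tendsto (fun N : ℕ => Real.log (N : ℝ)) atTop atTop :=
    Real.tendsto_log_atTop.comp tendsto_natCast_atTop_atTop
  have hlogpow : ∀ (k : ℕ) (c : ℝ), 0 < c → ∀ᶠ x : ℝ in atTop, (Real.log x) ^ k ≤ c * x := by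
    intro k c hc
    have h1 : (fun x : ℝ => (Real.log x) ^ k) =o[atTop] (fun x : ℝ => x) :=
      Real.isLittleO_pow_log_id_atTop
    filter_upwards [h1.bound hc, eventually_ge_atTop 1] with x hx hx1
    have hl : 0 ≤ Real.log x := Real.log_nonneg hx1
    rw [Real.norm_of_nonneg (by positivity), Real.norm_of_nonneg (by linarith)] at hx
    exact hx
  have e1 := hlog.eventually (hlogpow K 1 one_pos)
  have e2 := tendsto_natCast_atTop_atTop.eventually (hlogpow (a + 4) (1 / 2) (by norm_num))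
  have e3 := hlog.eventually_ge_atTop ((2 : ℝ) ^ (a + 8))
  have e4 : ∀ᶠ X : ℕ in atTop, 6 * max n1 2 + 6 ≤ X := eventually_ge_atTop _
  filter_upwards [h1, e1, e2, e3, e4] with X g1 g2 g3 g4 g5
  intro x hx hxH
  set H := ⌊(Real.log (Real.log X)) ^ K⌋₊ with hH
  set ℓ : ℝ := Real.log X with hℓ
  set z := wX D X with hz
  have hp6 : (64 : ℝ) ≤ 2 ^ (a + 8) := by
    calc (64 : ℝ) = 2 ^ 6 := by norm_num
      _ ≤ 2 ^ (a + 8) := pow_le_pow_right₀ (by norm_num) (by omega)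
  have hℓ64 : 64 ≤ ℓ := le_trans hp6 g4
  have hℓ0 : 0 < ℓ := by linarith
  have hz2 : 2 ≤ z := by
    rw [hz]; unfold wX
    refine Nat.le_floor ?_
    push_cast
    calc (2 : ℝ) ≤ ℓ := by linarith
      _ = ℓ ^ 1 := (pow_one _).symm
      _ ≤ _ := pow_le_pow_right₀ (by linarith) hD
  have hHℓ : (H : ℝ) ≤ ℓ := by
    refine (Nat.floor_le ?_).trans ?_
    · have : 0 ≤ Real.log ℓ := Real.log_nonneg (by linarith)
      positivity
    · linarith
  have hX0 : (0 : ℝ) < X := by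
    have : 0 < X := by omega
    exact_mod_cast this
  obtain ⟨y, hyd⟩ : ∃ y : ℕ, y = X / 6 := ⟨_, rfl⟩
  have hy6 : 6 * y ≤ X := by omega
  have hy7 : X < 6 * y + 6 := by omega
  by_contra hcon
  push Not at hcon
  have hstep := gaps_step_H a z x H y X ((X : ℝ) / ℓ ^ (a + 4)) hy6 (by omega) (by
    intro n hn
    by_cases hev : Even n
    · exact hcon n hn hev
    · have h7 := goodH_odd (a := a) (X := X) hz2 hev
      have h8 : ((goodH a z X n).card : ℝ) ≤ 1 := by exact_mod_cast h7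
      refine lt_of_le_of_lt h8 ?_
      rw [lt_div_iff₀ (by positivity), one_mul]
      have : 0 < (X : ℝ) := hX0
      linarith)
  have h2 := few_bad_H a z x y X H (by omega)
  have h3 := hstep.trans (h2.trans g1)
  -- lower bound for the number of a-primes
  have hxn : max n1 2 ≤ y := by omega
  have h5 := hn1 y ((le_max_left _ _).trans hxn)
  have hx2 : (2 : ℝ) ≤ y := by
    have : 2 ≤ y := (le_max_right _ _).trans hxn
    exact_mod_cast this
  have hlx : 0 < Real.log y := Real.log_pos (by linarith)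
  have hxX : (y : ℝ) ≤ X := by
    have : y ≤ X := by omega
    exact_mod_cast this
  have hlxN : Real.log y ≤ ℓ := Real.log_le_log (by linarith) hxX
  have hx4 : (X : ℝ) / 12 ≤ y := by
    have : (X : ℝ) ≤ 12 * y := by exact_mod_cast (by omega : X ≤ 12 * y)
    linarith
  have h6 : (X : ℝ) / 12 / (2 * ℓ) ^ (a + 1) ≤ pic (a + 1) y := by
    refine le_trans ?_ h5
    gcongr
  have h7 : (X : ℝ) / 12 / (2 * ℓ) ^ (a + 1) =
      (X : ℝ) / ℓ ^ (a + 4) * (ℓ ^ 3 / (3 * 2 ^ (a + 3))) := by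
    rw [mul_pow]
    have e1 : ℓ ^ (a + 4) = ℓ ^ (a + 1) * ℓ ^ 3 := by ring
    have e2 : (3 : ℝ) * 2 ^ (a + 3) = 12 * 2 ^ (a + 1) := by ring
    rw [e1, e2]
    field_simp
  have h8 : 1 ≤ (X : ℝ) / ℓ ^ (a + 4) := by
    rw [le_div_iff₀ (by positivity), one_mul]
    linarith
  set Y : ℝ := (X : ℝ) / ℓ ^ (a + 4) with hY
  have h9 : 2 * ℓ ^ 2 ≤ ℓ ^ 3 / (3 * 2 ^ (a + 3)) := by
    rw [le_div_iff₀ (by positivity)]
    have e3 : (2 : ℝ) ^ (a + 8) = 32 * 2 ^ (a + 3) := by ring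
    have e4 : 2 * (3 * 2 ^ (a + 3)) ≤ ℓ := by
      have : (0 : ℝ) < 2 ^ (a + 3) := by positivity
      linarith
    calc 2 * ℓ ^ 2 * (3 * 2 ^ (a + 3)) = ℓ ^ 2 * (2 * (3 * 2 ^ (a + 3))) := by ring
      _ ≤ ℓ ^ 2 * ℓ := by gcongr
      _ = ℓ ^ 3 := by ring
  have h10 : Y * (2 * ℓ ^ 2) ≤ ℓ * Y + Y := by
    have h11 : Y * (2 * ℓ ^ 2) ≤ pic (a + 1) y := by
      refine le_trans ?_ h6
      rw [h7]
      gcongr
    have h12 : (H : ℝ) * Y ≤ ℓ * Y := by gcongr
    linarith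
  have hY1 : 0 < Y := by linarith
  nlinarith [mul_pos hY1 hℓ0]

end Pool.Agent.Lib.MP_e3f158_nt.TT
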