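import Pool.Agent.Lib.MP_e3f158_nt.TP.Final
import Pool.Agent.Lib.MP_e3f158_nt.TT.Defs
import Pool.Agent.Lib.MP_e3f158_nt.TT.Half
import Pool.Agent.Lib.MP_e3f158_nt.TT.EvL

/-!
# MP_e3f158_nt, Theorem T: the final step (helper33)
-/

set_option autoImplicit false

namespace Pool.Agent.Lib.MP_e3f158_nt.TT

open Finset Filter Pool.MP_dd84fd_nt.En Pool.MP_dd84fd_nt.E2 Pool.MP_dd84fd_nt.GX
  Pool.Agent.Lib.MP_e3f158_nt Pool.Agent.Lib.MP_e3f158_nt.G Pool.Agent.Lib.MP_e3f158_nt.U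
  Pool.Agent.Lib.MP_e3f158_nt.TP

/-- from the scale `X = 3 N` to the scale `N` -/
theorem conv_t (K N : ℕ) (hN : 1 ≤ N) (h1 : (1 : ℝ) ≤ Real.log N)
    (h3 : (3 : ℝ) ≤ Real.log (3 * N : ℕ)) (q T : ℕ)
    (hq : (q : ℝ) ≤ ((3 * N : ℕ) : ℝ) ^ (4 / 5 : ℝ) / 4)
    (hT : 4 * ((3 * N : ℕ) : ℝ) ^ (1 / 5 : ℝ) ≤ (T : ℝ))
    (hT' : (T : ℝ) ≤ ((3 * N : ℕ) : ℝ) / (Real.log (3 * N : ℕ)) ^ (K + 1)) :
    (q : ℝ) ≤ (N : ℝ) ^ (4 / 5 : ℝ) ∧ (N : ℝ) ^ (1 / 5 : ℝ) ≤ (T : ℝ) ∧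
      (T : ℝ) ≤ N / (Real.log N) ^ K := by
  have hN' : (1 : ℝ) ≤ N := by exact_mod_cast hN
  have hcast : ((3 * N : ℕ) : ℝ) = 3 * (N : ℝ) := by push_cast; ring
  refine ⟨hq.trans ?_, le_trans ?_ hT, hT'.trans ?_⟩
  · rw [hcast, Real.mul_rpow (by norm_num) (by linarith)]
    have h4 : (3 : ℝ) ^ (4 / 5 : ℝ) ≤ 3 := by
      calc (3 : ℝ) ^ (4 / 5 : ℝ) ≤ (3 : ℝ) ^ (1 : ℝ) :=
            Real.rpow_le_rpow_of_exponent_le (by norm_num) (by norm_num)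
        _ = 3 := Real.rpow_one _
    have h5 : 0 ≤ (N : ℝ) ^ (4 / 5 : ℝ) := by positivity
    nlinarith [mul_le_mul_of_nonneg_right h4 h5]
  · have h4 : (N : ℝ) ^ (1 / 5 : ℝ) ≤ ((3 * N : ℕ) : ℝ) ^ (1 / 5 : ℝ) :=
      Real.rpow_le_rpow (by linarith) (by rw [hcast]; linarith) (by norm_num)
    have h5 : 0 ≤ (N : ℝ) ^ (1 / 5 : ℝ) := by positivity
    linarith
  · have hle : Real.log N ≤ Real.log (3 * N : ℕ) :=
      Real.log_le_log (by linarith) (by rw [hcast]; linarith)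
    generalize Real.log (3 * N : ℕ) = M at h3 hle ⊢
    rw [hcast, div_le_div_iff₀ (by positivity) (by positivity), pow_succ]
    have h2 : (Real.log N) ^ K ≤ M ^ K := by gcongr
    have h4 : 3 * (Real.log N) ^ K ≤ M * M ^ K := mul_le_mul h3 h2 (by positivity) (by linarith)
    calc 3 * (N : ℝ) * (Real.log N) ^ K = N * (3 * (Real.log N) ^ K) := by ring
      _ ≤ N * (M * M ^ K) := by gcongr
      _ = _ := by ring

/-- a lower bound of the weights bounds the number of progressions -/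
theorem card_of_weight_t (N : ℕ) (hN : 1 ≤ N) (κ : ℝ) (hκ : 0 < κ) (P : Finset (ℤ × ℕ × ℕ))
    (h1 : ∀ p ∈ P, (N : ℝ) ^ (1 / 5 : ℝ) ≤ (p.2.2 : ℝ))
    (h2 : ∑ p ∈ P, ((p.2.2 : ℝ) / N) ^ κ ≤ 1) : (P.card : ℝ) ≤ (N : ℝ) ^ κ := by
  have hN' : (1 : ℝ) ≤ N := by exact_mod_cast hN
  have hN0 : (0 : ℝ) < N := by linarith
  have hn : 0 < (N : ℝ) ^ κ := by positivity
  have h4 : ∀ p ∈ P, ((N : ℝ) ^ κ)⁻¹ ≤ ((p.2.2 : ℝ) / N) ^ κ := by
    intro p hp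
    rw [← Real.inv_rpow hN0.le]
    refine Real.rpow_le_rpow (by positivity) ?_ hκ.le
    rw [inv_eq_one_div]
    refine div_le_div_of_nonneg_right ?_ hN0.le
    exact (Real.one_le_rpow hN' (by norm_num)).trans (h1 p hp)
  have h5 : (P.card : ℝ) * ((N : ℝ) ^ κ)⁻¹ ≤ 1 := by
    calc (P.card : ℝ) * ((N : ℝ) ^ κ)⁻¹ = ∑ p ∈ P, ((N : ℝ) ^ κ)⁻¹ := by
          rw [sum_const, nsmul_eq_mul]
      _ ≤ _ := sum_le_sum h4
      _ ≤ 1 := h2
  rw [mul_inv_le_iff₀ hn, one_mul] at h5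
  exact h5

/-- all the elementary inequalities needed at the end -/
theorem scale_t (Kg D F : ℕ) (t1 t2 κ : ℝ) (ht : t1 < t2) (ht0 : 0 ≤ t1) :
    ∀ᶠ N : ℕ in atTop,
    2 ≤ N ∧ (1 : ℝ) ≤ Real.log N ∧ (3 : ℝ) ≤ Real.log (3 * N : ℕ) ∧
    (Real.log (3 * N : ℕ)) ^ D ≤ (Real.log N) ^ (D + 1) ∧
    (Real.log (Real.log (3 * N : ℕ))) ^ Kg ≤ (Real.log (Real.log N)) ^ (Kg + 1) ∧
    (Real.log (Real.log (3 * N : ℕ))) ^ Kg ≤ N ∧
    0 ≤ (Real.log (Real.log (3 * N : ℕ))) ^ Kg ∧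
    3 ^ κ * (((Real.log (Real.log (3 * N : ℕ))) ^ Kg + 1) * (F / Real.log (3 * N : ℕ))) ≤ 1 ∧
    F * (((Real.log (Real.log (3 * N : ℕ))) ^ Kg + 2) * (3 * N : ℕ) ^ t1) ≤ (N : ℝ) ^ t2 := by
  have hlog : Tendsto (fun N : ℕ => Real.log (N : ℝ)) atTop atTop :=
    Real.tendsto_log_atTop.comp tendsto_natCast_atTop_atTop
  have hloglog : Tendsto (fun N : ℕ => Real.log (Real.log (N : ℝ))) atTop atTop :=
    Real.tendsto_log_atTop.comp hlog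
  have h3N : Tendsto (fun N : ℕ => 3 * N) atTop atTop :=
    tendsto_id.const_mul_atTop' (by norm_num)
  have hlog3 : Tendsto (fun N : ℕ => Real.log ((3 * N : ℕ) : ℝ)) atTop atTop := hlog.comp h3N
  have hlogpow : ∀ (k : ℕ) (c : ℝ), 0 < c → ∀ᶠ x : ℝ in atTop, (Real.log x) ^ k ≤ c * x := by
    intro k c hc
    have h1 : (fun x : ℝ => (Real.log x) ^ k) =o[atTop] (fun x : ℝ => x) :=
      Real.isLittleO_pow_log_id_atTop
    filter_upwards [h1.bound hc, eventually_ge_atTop 1] with x hx hx1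
    have hl : 0 ≤ Real.log x := Real.log_nonneg hx1
    rw [Real.norm_of_nonneg (by positivity), Real.norm_of_nonneg (by linarith)] at hx
    exact hx
  have h3κ : (0 : ℝ) < 3 ^ κ := by positivity
  have e1 := hlog3.eventually (hlogpow Kg (1 / (2 * ((F + 1) * 3 ^ κ))) (by positivity))
  have e2 := hlog3.eventually (hlogpow Kg 1 one_pos)
  have e3 := hlog3.eventually_ge_atTop (2 * ((F + 1) * 3 ^ κ))
  have e4 := hlog.eventually_ge_atTop (max 3 (2 ^ D))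
  have e5 := hloglog.eventually_ge_atTop (2 ^ Kg)
  have e6 := tendsto_natCast_atTop_atTop.eventually (hlogpow 1 (1 / 2) (by norm_num))
  have hrp : ∀ᶠ x : ℝ in atTop,
      (F + 1) * (4 * 3 ^ t1) * Real.log x ≤ x ^ (t2 - t1) := by
    have h1 := isLittleO_log_rpow_atTop (show (0 : ℝ) < t2 - t1 by linarith)
    have hc : (0 : ℝ) < (F + 1) * (4 * 3 ^ t1) := by positivity
    filter_upwards [h1.bound (c := 1 / ((F + 1) * (4 * 3 ^ t1))) (by positivity),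
      eventually_ge_atTop 1] with x hx hx1
    have hl : 0 ≤ Real.log x := Real.log_nonneg hx1
    rw [Real.norm_of_nonneg hl, Real.norm_of_nonneg (by positivity), one_div,
      le_inv_mul_iff₀ hc] at hx
    exact hx
  have e7 := tendsto_natCast_atTop_atTop.eventually hrp
  filter_upwards [e1, e2, e3, e4, e5, e6, e7, eventually_ge_atTop 1024] with N f1 f2 f3 f4 f5 f6 f7 f8
  have hN : (1024 : ℝ) ≤ N := by exact_mod_cast f8
  have hN0 : (0 : ℝ) < N := by linarith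
  have hcast : ((3 * N : ℕ) : ℝ) = 3 * (N : ℝ) := by push_cast; ring
  have hlog3' : Real.log (3 : ℝ) ≤ 2 := by
    have := Real.log_le_sub_one_of_pos (show (0 : ℝ) < 3 by norm_num)
    linarith
  have hlog3p : 0 ≤ Real.log (3 : ℝ) := Real.log_nonneg (by norm_num)
  have hMe : Real.log ((3 * N : ℕ) : ℝ) = Real.log 3 + Real.log N := by
    rw [hcast, Real.log_mul (by norm_num) hN0.ne']
  generalize Real.log ((3 * N : ℕ) : ℝ) = M at f1 f2 f3 hMe ⊢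
  rw [hcast]
  generalize Real.log (N : ℝ) = ℓ at f4 f5 f6 f7 hMe ⊢
  have hℓ3 : (3 : ℝ) ≤ ℓ := (le_max_left _ _).trans f4
  have hℓD : (2 : ℝ) ^ D ≤ ℓ := (le_max_right _ _).trans f4
  have hM3 : (3 : ℝ) ≤ M := by linarith
  have hM2 : M ≤ 2 * ℓ := by linarith
  have hll0 : 0 ≤ Real.log M := Real.log_nonneg (by linarith)
  have hll : Real.log M ≤ 2 * Real.log ℓ := by
    have h1 : Real.log (ℓ ^ 2) = 2 * Real.log ℓ := by rw [Real.log_pow]; norm_num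
    rw [← h1]
    exact Real.log_le_log (by linarith) (by nlinarith)
  have hll1 : 0 ≤ Real.log ℓ := Real.log_nonneg (by linarith)
  refine ⟨by omega, by linarith, hM3, ?_, ?_, ?_, by positivity, ?_, ?_⟩
  · calc M ^ D ≤ (2 * ℓ) ^ D := by gcongr
      _ = 2 ^ D * ℓ ^ D := by rw [mul_pow]
      _ ≤ ℓ * ℓ ^ D := by gcongr
      _ = ℓ ^ (D + 1) := by rw [pow_succ]; ring
  · calc (Real.log M) ^ Kg ≤ (2 * Real.log ℓ) ^ Kg := by gcongr
      _ = 2 ^ Kg * (Real.log ℓ) ^ Kg := by rw [mul_pow]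
      _ ≤ Real.log ℓ * (Real.log ℓ) ^ Kg := by gcongr
      _ = (Real.log ℓ) ^ (Kg + 1) := by rw [pow_succ]; ring
  · rw [one_mul] at f2
    rw [pow_one] at f6
    linarith
  · have h1 : (Real.log M) ^ Kg + 1 ≤ M / ((F + 1) * 3 ^ κ) := by
      have h2 : 1 / (2 * ((F + 1) * 3 ^ κ)) * M + 1 / (2 * ((F + 1) * 3 ^ κ)) * M =
          M / ((F + 1) * 3 ^ κ) := by
        field_simp; ring
      have h3 : 1 ≤ 1 / (2 * ((F + 1) * 3 ^ κ)) * M := by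
        rw [one_div, le_inv_mul_iff₀ (by positivity), mul_one]
        exact f3
      linarith
    have hM0 : 0 < M := by linarith
    calc 3 ^ κ * (((Real.log M) ^ Kg + 1) * (F / M)) ≤ 3 ^ κ * (M / ((F + 1) * 3 ^ κ) * (F / M)) := by
          gcongr
      _ = F / (F + 1) := by
          field_simp
      _ ≤ 1 := by
          rw [div_le_one (by positivity)]
          linarith
  · rw [Real.mul_rpow (by norm_num) hN0.le]
    have h1 : (N : ℝ) ^ t2 = (N : ℝ) ^ (t2 - t1) * (N : ℝ) ^ t1 := by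
      rw [← Real.rpow_add hN0]
      congr 1; ring
    rw [h1]
    have h2 : (Real.log M) ^ Kg + 2 ≤ 4 * ℓ := by
      rw [one_mul] at f2
      linarith
    calc F * (((Real.log M) ^ Kg + 2) * (3 ^ t1 * (N : ℝ) ^ t1))
        ≤ (F + 1) * ((4 * ℓ) * (3 ^ t1 * (N : ℝ) ^ t1)) := by
          gcongr
          linarith
      _ = ((F + 1) * (4 * 3 ^ t1) * ℓ) * (N : ℝ) ^ t1 := by ring
      _ ≤ (N : ℝ) ^ (t2 - t1) * (N : ℝ) ^ t1 := by gcongr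

theorem thin_small (hC : CovS) (hL : FinLS) : ∃ K₀ : ℕ, ∀ (A K : ℕ) (θ κ : ℝ), 1 / 5 < θ →
    θ < 1 / 3 → 0 < κ → ∃ C : ℕ,
    ∀ᶠ N : ℕ in atTop, ∃ P : Finset (ℤ × ℕ × ℕ),
      (∀ p ∈ P, 1 ≤ p.2.1 ∧ (p.2.1 : ℝ) ≤ (N : ℝ) ^ (4 / 5 : ℝ) ∧
        (N : ℝ) ^ (1 / 5 : ℝ) ≤ (p.2.2 : ℝ) ∧ (p.2.2 : ℝ) ≤ N / (Real.log N) ^ K) ∧
      (P.card : ℝ) ≤ (N : ℝ) ^ κ ∧
      ∑ p ∈ P, ((p.2.2 : ℝ) / N) ^ κ ≤ 1 ∧
      ∃ EX : Finset ℕ, (EX.card : ℝ) ≤ (N : ℝ) ^ θ ∧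
        ∀ n : ℕ, N < n → n ≤ 2 * N → (∀ p ∈ P, ¬ apm p n) → n ∉ EX →
        (Even n → HasRep 0 0 n) ∧ ∀ a ≤ A,
        (HasRep a 0 n ∨ ∀ S : Finset ℕ, (∀ r ∈ S, (∃ x : ℕ, 1 ≤ x ∧ ipr a x = r) ∧ 2 * r ≤ N ∧
            ∀ p : ℕ, p.Prime → p ∣ n - r → (Real.log N) ^ C < (p : ℝ)) →
            (S.card : ℝ) < N / (Real.log N) ^ A) ∧
        ∃ m : ℕ, Even m ∧ n < m ∧ (m : ℝ) ≤ n + (Real.log (Real.log N)) ^ K₀ ∧ HasRep a 0 m := by
  classical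
  obtain ⟨Kg, hKg⟩ := every_H
  refine ⟨Kg + 1, fun A K θ κ hθ1 hθ2 hκ => ?_⟩
  obtain ⟨B, hB⟩ : ∃ B : ℕ, B = A + 4 := ⟨_, rfl⟩
  obtain ⟨t, ht⟩ : ∃ t : ℝ, t = (1 / 5 + θ) / 2 := ⟨_, rfl⟩
  have t1 : 1 / 5 < t := by rw [ht]; linarith
  have t2 : t < θ := by rw [ht]; linarith
  obtain ⟨D1, h1⟩ := hC (B + 2) (K + 1) t κ t1 (by linarith) hκ
  obtain ⟨D, hD⟩ : ∃ D : ℕ, D = max 1 D1 := ⟨_, rfl⟩
  have hD0 : 1 ≤ D := by rw [hD]; exact le_max_left _ _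
  have hD1 : D1 ≤ D := by rw [hD]; exact le_max_right _ _
  obtain ⟨X1, hX1⟩ := h1 D hD1
  have h3N : Tendsto (fun N : ℕ => 3 * N) atTop atTop :=
    tendsto_id.const_mul_atTop' (by norm_num)
  have e1 : ∀ᶠ N : ℕ in atTop, ∀ a ∈ range (A + 1), ∀ x : ℕ, 3 * N ≤ 4 * x →
      x + ⌊(Real.log (Real.log (3 * N : ℕ))) ^ Kg⌋₊ ≤ 3 * N →
      ∃ n ∈ Ioc x (x + ⌊(Real.log (Real.log (3 * N : ℕ))) ^ Kg⌋₊), Even n ∧
      ((3 * N : ℕ) : ℝ) / (Real.log (3 * N : ℕ)) ^ (a + 4) ≤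
        ((goodH a (wX D (3 * N)) (3 * N) n).card : ℝ) := by
    rw [eventually_all_finset]
    intro a _
    exact h3N.eventually (hKg a D hD0)
  have e2 := h3N.eventually (exc_H B)
  refine ⟨D + 1, ?_⟩
  filter_upwards [e1, e2, scale_t Kg D (A + 2) t θ κ t2 (by linarith), eventually_ge_atTop X1,
    evenL hL K t κ t1 (by linarith) hκ] with N g1 g2 g3 g4 g5
  obtain ⟨s1, s2, s3, s4, s5, s6, s7, s8, s9⟩ := g3
  obtain ⟨PP2, p2, w2, u2⟩ := g5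
  have hcast : ((3 * N : ℕ) : ℝ) = 3 * (N : ℝ) := by push_cast; ring
  obtain ⟨X, hX⟩ : ∃ X : ℕ, X = 3 * N := ⟨_, rfl⟩
  have hN1 : 1 ≤ N := by omega
  have hlogle : Real.log N ≤ Real.log (3 * N : ℕ) :=
    Real.log_le_log (by exact_mod_cast (by omega : 0 < N)) (by
      rw [hcast]
      have : (0 : ℝ) ≤ N := Nat.cast_nonneg N
      linarith)
  -- the coverings
  have hcov := fun a => hX1 (3 * N) (by omega) (SH a (3 * N)) (SH_sub _ _) (fun r hr => SH_le hr)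
  choose PPf p1 w1 u1 using hcov
  have hconv := conv_t K N hN1 s2 s3
  rw [← hX] at hcast g1 g2 s3 s4 s5 s6 s7 s8 s9 w2 u2 p1 w1 u1 hlogle hconv
  have hwX : ((wX D X : ℕ) : ℝ) ≤ (Real.log (X : ℝ)) ^ D := Nat.floor_le (by positivity)
  obtain ⟨M, hM⟩ : ∃ M : ℝ, M = Real.log (X : ℝ) := ⟨_, rfl⟩
  rw [← hM] at g1 g2 s3 s4 s5 s6 s7 s8 s9 w2 p1 w1 u1 hlogle hwX hconv
  obtain ⟨Hr, hHr⟩ : ∃ Hr : ℝ, Hr = (Real.log M) ^ Kg := ⟨_, rfl⟩
  rw [← hHr] at g1 s5 s6 s7 s8 s9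
  obtain ⟨H, hH⟩ : ∃ H : ℕ, H = ⌊Hr⌋₊ := ⟨_, rfl⟩
  rw [← hH] at g1
  have hHle : (H : ℝ) ≤ Hr := by rw [hH]; exact Nat.floor_le s7
  have hN' : (1 : ℝ) ≤ N := by exact_mod_cast hN1
  have hXpos : (0 : ℝ) < X := by rw [hcast]; linarith
  have hHN : H ≤ N := by exact_mod_cast hHle.trans s6
  set Uf : ℕ → Finset ℕ := fun a => ((Icc 1 X).filter fun n => X ≤ 3 * n ∧
        RA (SH a X) n + X / M ^ (B + 2) < 2 / 5 * Rz (wX D X) (SH a X) n).filter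
          fun n => ∀ p ∈ PPf a, ¬ apm p n with hUf
  set PP1 := (range (A + 1)).biUnion PPf with hPP1
  set U1 := (range (A + 1)).biUnion Uf with hU1
  set U2 := (Icc 1 X).filter fun n => N < n ∧ n ≤ 2 * N ∧ Even n ∧ ¬ HasRep 0 0 n ∧
        ∀ p ∈ PP2, ¬ apm p n with hU2
  have hu1 : (U1.card : ℝ) ≤ (A + 1) * (X : ℝ) ^ t := by
    have := card_biUnion_le_mul (A + 1) Uf ((X : ℝ) ^ t) u1
    push_cast at this
    exact this
  have hw1 : ∑ p ∈ PP1, ((p.2.2 : ℝ) / X) ^ κ ≤ (A + 1) * (1 / M) := by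
    have := sum_biUnion_le_mul (A + 1) PPf (fun p => ((p.2.2 : ℝ) / X) ^ κ) (1 / M)
      (fun p => by positivity) w1
    push_cast at this
    exact this
  have hM0 : 0 < M := by linarith
  have hpp : ∀ p ∈ fat H (PP1 ∪ PP2), 1 ≤ p.2.1 ∧ (p.2.1 : ℝ) ≤ (N : ℝ) ^ (4 / 5 : ℝ) ∧
      (N : ℝ) ^ (1 / 5 : ℝ) ≤ (p.2.2 : ℝ) ∧ (p.2.2 : ℝ) ≤ N / (Real.log N) ^ K := by
    intro p hp
    obtain ⟨p', hp', he⟩ := mem_fat hp
    rw [he]
    rcases mem_union.1 hp' with h | h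
    · rw [hPP1, mem_biUnion] at h
      obtain ⟨a, _, h⟩ := h
      obtain ⟨a1, a2, a3, a4⟩ := p1 a p' h
      obtain ⟨b1, b2, b3⟩ := hconv p'.2.1 p'.2.2 a2 a3 a4
      exact ⟨a1, b1, b2, b3⟩
    · exact p2 p' h
  have hww : ∑ p ∈ fat H (PP1 ∪ PP2), ((p.2.2 : ℝ) / N) ^ κ ≤ 1 := by
    refine (sum_fat H (PP1 ∪ PP2) (fun x => ((x.2 : ℝ) / N) ^ κ) (fun x => by positivity)).trans ?_
    have h31 : (1 : ℝ) ≤ 3 ^ κ := Real.one_le_rpow (by norm_num) hκ.le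
    have h5 : ∑ p ∈ PP1 ∪ PP2, ((p.2.2 : ℝ) / N) ^ κ ≤ 3 ^ κ * (((A + 2 : ℕ) : ℝ) / M) := by
      have h6 : ∀ p : ℤ × ℕ × ℕ, ((p.2.2 : ℝ) / N) ^ κ = 3 ^ κ * ((p.2.2 : ℝ) / X) ^ κ := by
        intro p
        rw [← Real.mul_rpow (by norm_num) (by positivity)]
        congr 1
        rw [hcast]
        field_simp
      have h7 : ∑ p ∈ PP1 ∪ PP2, ((p.2.2 : ℝ) / N) ^ κ ≤
          ∑ p ∈ PP1, ((p.2.2 : ℝ) / N) ^ κ + ∑ p ∈ PP2, ((p.2.2 : ℝ) / N) ^ κ := by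
        rw [← sum_union_inter]
        have : 0 ≤ ∑ p ∈ PP1 ∩ PP2, ((p.2.2 : ℝ) / N) ^ κ := sum_nonneg fun _ _ => by positivity
        linarith
      have h8 : ∑ p ∈ PP1, ((p.2.2 : ℝ) / N) ^ κ = 3 ^ κ * ∑ p ∈ PP1, ((p.2.2 : ℝ) / X) ^ κ := by
        rw [mul_sum]; exact sum_congr rfl fun p _ => h6 p
      have h9 : 1 / M ≤ 3 ^ κ * (1 / M) := le_mul_of_one_le_left (by positivity) h31
      calc ∑ p ∈ PP1 ∪ PP2, ((p.2.2 : ℝ) / N) ^ κ ≤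
          3 ^ κ * ∑ p ∈ PP1, ((p.2.2 : ℝ) / X) ^ κ + 3 ^ κ * (1 / M) := by
            rw [← h8]
            linarith
        _ ≤ 3 ^ κ * ((A + 1) * (1 / M)) + 3 ^ κ * (1 / M) := by gcongr
        _ = 3 ^ κ * (((A + 2 : ℕ) : ℝ) / M) := by push_cast; ring
    calc ((H : ℝ) + 1) * ∑ p ∈ PP1 ∪ PP2, ((p.2.2 : ℝ) / N) ^ κ
        ≤ (Hr + 1) * (3 ^ κ * (((A + 2 : ℕ) : ℝ) / M)) := by
          refine mul_le_mul (by linarith) h5 (sum_nonneg fun _ _ => by positivity) (by linarith)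
      _ = 3 ^ κ * ((Hr + 1) * (((A + 2 : ℕ) : ℝ) / M)) := by ring
      _ ≤ 1 := s8
  refine ⟨fat H (PP1 ∪ PP2), hpp, ?_, hww, ?_⟩
  · exact card_of_weight_t N hN1 κ hκ _ (fun p hp => (hpp p hp).2.2.1) hww
  refine ⟨(U1 ∪ U2) ∪ (Icc 1 H).biUnion (fun h => U1.image (fun n => n - h)), ?_, ?_⟩
  · -- the size of the exceptional set
    have h5 : (((U1 ∪ U2) ∪ (Icc 1 H).biUnion (fun h => U1.image (fun n => n - h))).card : ℝ) ≤
        U1.card + U2.card + H * U1.card := by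
      have h6 : ((Icc 1 H).biUnion (fun h => U1.image (fun n => n - h))).card ≤ H * U1.card := by
        refine card_biUnion_le.trans ?_
        calc ∑ h ∈ Icc 1 H, (U1.image (fun n => n - h)).card ≤ ∑ h ∈ Icc 1 H, U1.card :=
              sum_le_sum fun h _ => card_image_le
          _ = H * U1.card := by rw [sum_const, Nat.card_Icc, Nat.add_sub_cancel, smul_eq_mul]
      have h7 := card_union_le (U1 ∪ U2) ((Icc 1 H).biUnion (fun h => U1.image (fun n => n - h)))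
      have h8 := card_union_le U1 U2
      have h9 : ((U1 ∪ U2) ∪ (Icc 1 H).biUnion (fun h => U1.image (fun n => n - h))).card ≤
          U1.card + U2.card + H * U1.card := by omega
      exact_mod_cast h9
    refine h5.trans (le_trans ?_ s9)
    have h6 : 0 ≤ (X : ℝ) ^ t := by positivity
    have hA0 : (0 : ℝ) ≤ A := Nat.cast_nonneg A
    calc (U1.card : ℝ) + U2.card + H * U1.card ≤
        (A + 1) * (X : ℝ) ^ t + (X : ℝ) ^ t + Hr * ((A + 1) * (X : ℝ) ^ t) := by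
          refine add_le_add (add_le_add hu1 u2) (mul_le_mul hHle hu1 (Nat.cast_nonneg _) s7)
      _ ≤ ((A + 2 : ℕ) : ℝ) * ((Hr + 2) * (X : ℝ) ^ t) := by
          push_cast
          have h7 : 0 ≤ Hr * (X : ℝ) ^ t := mul_nonneg s7 h6
          have h8 : 0 ≤ (A : ℝ) * (X : ℝ) ^ t := mul_nonneg hA0 h6
          nlinarith
  · intro n hn1 hn2 hnP hnE
    rw [mem_union, mem_union] at hnE
    push Not at hnE
    obtain ⟨⟨hnU1, hnU2⟩, hnI⟩ := hnE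
    have hnX : n ≤ X := by omega
    -- membership of `U1`
    have keyU1 : ∀ a ≤ A, ∀ m : ℕ, 1 ≤ m → m ≤ X → X ≤ 3 * m → ¬ HasRep a 0 m →
        (X : ℝ) / M ^ B ≤ ((goodH a (wX D X) X m).card : ℝ) → (∀ p ∈ PP1, ¬ apm p m) →
        m ∈ U1 := by
      intro a ha m hm1 hm2 hm6 hm3 hm4 hm5
      rw [hU1, mem_biUnion]
      refine ⟨a, by rw [mem_range]; omega, ?_⟩
      rw [hUf]
      show m ∈ ((Icc 1 X).filter fun n => X ≤ 3 * n ∧
        RA (SH a X) n + X / M ^ (B + 2) < 2 / 5 * Rz (wX D X) (SH a X) n).filter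
          fun n => ∀ p ∈ PPf a, ¬ apm p n
      rw [mem_filter, mem_filter, mem_Icc]
      refine ⟨⟨⟨hm1, hm2⟩, hm6, g2 a (wX D X) m hm2 hm3 hm4⟩, fun p hp => hm5 p ?_⟩
      rw [hPP1, mem_biUnion]
      exact ⟨a, by rw [mem_range]; omega, hp⟩
    have hPP : ∀ p ∈ PP1 ∪ PP2, ¬ apm p n := by
      intro p hp hpn
      exact hnP (shf 0 p) (shf_mem_fat (Nat.zero_le _) hp) (apm_shf (by simp) hpn)
    refine ⟨?_, fun a ha => ⟨?_, ?_⟩⟩
    · intro hev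
      by_contra hcon
      refine hnU2 ?_
      rw [hU2, mem_filter, mem_Icc]
      exact ⟨⟨by omega, hnX⟩, hn1, hn2, hev, hcon, fun p hp => hPP p (mem_union_right _ hp)⟩
    · by_contra hcon
      rw [not_or] at hcon
      obtain ⟨c1, c2⟩ := hcon
      push Not at c2
      obtain ⟨S, hS, hSc⟩ := c2
      refine hnU1 (keyU1 a ha n (by omega) hnX (by omega) c1 ?_
        (fun p hp => hPP p (mem_union_left _ hp)))
      have h5 : S ⊆ goodH a (wX D X) X n := by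
        intro r hr
        obtain ⟨⟨x, hx, hxr⟩, hrn, hrp⟩ := hS r hr
        have hr1 : 1 ≤ r := by
          rw [← hxr]
          exact (ipr_prime a x).one_le
        unfold goodH good
        rw [mem_filter, mem_filter, mem_Icc]
        refine ⟨⟨⟨hr1, by omega⟩, ⟨x, hx, hxr⟩, by omega, ?_⟩, by omega⟩
        rw [coprime_primorial_iff]
        intro p hpp hpz hpd
        have h6 := hrp p hpp hpd
        have h7 : (p : ℝ) ≤ M ^ D := le_trans (by exact_mod_cast hpz) hwX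
        linarith
      have h6 : (S.card : ℝ) ≤ ((goodH a (wX D X) X n).card : ℝ) := by
        exact_mod_cast card_le_card h5
      refine le_trans ?_ (hSc.trans h6)
      have h7 : M ^ (A + 1) ≤ M ^ B := pow_le_pow_right₀ (by linarith) (by omega)
      calc (X : ℝ) / M ^ B ≤ X / M ^ (A + 1) := by gcongr
        _ ≤ N / (Real.log N) ^ A := by
          rw [hcast, div_le_div_iff₀ (by positivity) (by positivity), pow_succ]
          have h8 : (Real.log N) ^ A ≤ M ^ A := by gcongr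
          have h9 : 3 * (Real.log N) ^ A ≤ M * M ^ A :=
            mul_le_mul s3 h8 (by positivity) (by linarith)
          calc 3 * (N : ℝ) * (Real.log N) ^ A = N * (3 * (Real.log N) ^ A) := by ring
            _ ≤ N * (M * M ^ A) := by gcongr
            _ = _ := by ring
    · obtain ⟨m, hm, hmev, hmg⟩ := g1 a (by rw [mem_range]; omega) n (by omega) (by omega)
      have hm' : n < m ∧ m ≤ n + H := mem_Ioc.1 hm
      refine ⟨m, hmev, hm'.1, ?_, ?_⟩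
      · have h5 : (m : ℝ) ≤ n + H := by exact_mod_cast hm'.2
        linarith
      · by_contra hcon
        have h6 : (X : ℝ) / M ^ B ≤ ((goodH a (wX D X) X m).card : ℝ) := by
          refine le_trans ?_ hmg
          have h7 : M ^ (a + 4) ≤ M ^ B := pow_le_pow_right₀ (by linarith) (by omega)
          gcongr
        by_cases hcov : ∀ p ∈ PP1, ¬ apm p m
        · have h7 := keyU1 a ha m (by omega) (by omega) (by omega) hcon h6 hcov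
          refine hnI ?_
          rw [mem_biUnion]
          refine ⟨m - n, by rw [mem_Icc]; omega, ?_⟩
          rw [mem_image]
          exact ⟨m, h7, by omega⟩
        · push Not at hcov
          obtain ⟨p, hp, hpm⟩ := hcov
          exact hnP (shf (m - n) p) (shf_mem_fat (by omega) (mem_union_left _ hp))
            (apm_shf (by omega) hpm)

/-- The final theorem of Theorem T -/
theorem thin_t (hC : CovS) (hL : FinLS) : ∃ K₀ : ℕ, ∀ (A K : ℕ) (θ κ : ℝ), 1 / 5 < θ →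
    0 < κ → ∃ C : ℕ,
    ∀ᶠ N : ℕ in atTop, ∃ P : Finset (ℤ × ℕ × ℕ),
      (∀ p ∈ P, 1 ≤ p.2.1 ∧ (p.2.1 : ℝ) ≤ (N : ℝ) ^ (4 / 5 : ℝ) ∧
        (N : ℝ) ^ (1 / 5 : ℝ) ≤ (p.2.2 : ℝ) ∧ (p.2.2 : ℝ) ≤ N / (Real.log N) ^ K) ∧
      (P.card : ℝ) ≤ (N : ℝ) ^ κ ∧
      ∑ p ∈ P, ((p.2.2 : ℝ) / N) ^ κ ≤ 1 ∧
      ∃ EX : Finset ℕ, (EX.card : ℝ) ≤ (N : ℝ) ^ θ ∧
        ∀ n : ℕ, N < n → n ≤ 2 * N → (∀ p ∈ P, ¬ apm p n) → n ∉ EX →
        (Even n → HasRep 0 0 n) ∧ ∀ a ≤ A,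
        (HasRep a 0 n ∨ ∀ S : Finset ℕ, (∀ r ∈ S, (∃ x : ℕ, 1 ≤ x ∧ ipr a x = r) ∧ 2 * r ≤ N ∧
            ∀ p : ℕ, p.Prime → p ∣ n - r → (Real.log N) ^ C < (p : ℝ)) →
            (S.card : ℝ) < N / (Real.log N) ^ A) ∧
        ∃ m : ℕ, Even m ∧ n < m ∧ (m : ℝ) ≤ n + (Real.log (Real.log N)) ^ K₀ ∧ HasRep a 0 m := by
  obtain ⟨K₀, h⟩ := thin_small hC hL
  refine ⟨K₀, fun A K θ κ hθ hκ => ?_⟩
  obtain ⟨C, hC⟩ := h A K (min θ (3 / 10)) κ (lt_min hθ (by norm_num))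
    ((min_le_right _ _).trans_lt (by norm_num)) hκ
  refine ⟨C, ?_⟩
  filter_upwards [hC, eventually_ge_atTop 1] with N hN hN1
  obtain ⟨P, h1, h2, h3, EX, h4, h5⟩ := hN
  refine ⟨P, h1, h2, h3, EX, h4.trans ?_, h5⟩
  exact Real.rpow_le_rpow_of_exponent_le (by exact_mod_cast hN1) (min_le_left _ _)

end Pool.Agent.Lib.MP_e3f158_nt.TT
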