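import Pool.Agent.Lib.MP_e3f158_nt.TT.Final

/-!
# MP_e3f158_nt, Theorem T: the form of the hand-in (helper33)
-/

set_option autoImplicit false

namespace Pool.Agent.Lib.MP_e3f158_nt.TT

open Pool.Agent.Lib.MP_e3f158_nt

theorem result_t (hC : CovS) (hL : FinLS) :
    ∃ K₀ : ℕ, ∀ (A K : ℕ) (θ κ : ℝ), 1 / 5 < θ → 0 < κ → ∃ C : ℕ,
    ∀ᶠ N : ℕ in Filter.atTop, ∃ P : Finset (ℤ × ℕ × ℕ),
      (∀ p ∈ P, 1 ≤ p.2.1 ∧ (p.2.1 : ℝ) ≤ (N : ℝ) ^ (4 / 5 : ℝ) ∧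
        (N : ℝ) ^ (1 / 5 : ℝ) ≤ (p.2.2 : ℝ) ∧ (p.2.2 : ℝ) ≤ N / Real.log N ^ K) ∧
      (P.card : ℝ) ≤ (N : ℝ) ^ κ ∧
      ∑ p ∈ P, ((p.2.2 : ℝ) / N) ^ κ ≤ 1 ∧
      (Set.ncard {n : ℕ | N < n ∧ n ≤ 2 * N ∧
        (∀ p ∈ P, ∀ i : ℕ, i < p.2.2 → (n : ℤ) ≠ p.1 + i * p.2.1) ∧
        ¬ ((Even n → HasRep 0 0 n) ∧ ∀ a ≤ A,
          (HasRep a 0 n ∨ (Set.ncard {r : ℕ | (∃ x : ℕ, 1 ≤ x ∧ ipr a x = r) ∧ 2 * r ≤ N ∧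
              ∀ p : ℕ, p.Prime → p ∣ n - r → Real.log N ^ C < (p : ℝ)} : ℝ) <
            N / Real.log N ^ A) ∧
          ∃ m : ℕ, Even m ∧ n < m ∧ (m : ℝ) ≤ n + Real.log (Real.log N) ^ K₀ ∧
            HasRep a 0 m)} : ℝ) ≤ (N : ℝ) ^ θ := by
  classical
  obtain ⟨K₀, h⟩ := thin_t hC hL
  refine ⟨K₀, fun A K θ κ hθ hκ => ?_⟩
  obtain ⟨C, hC⟩ := h A K θ κ hθ hκ
  refine ⟨C, ?_⟩
  filter_upwards [hC] with N hN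
  obtain ⟨P, h1, h2, h3, EX, h4, h5⟩ := hN
  refine ⟨P, h1, h2, h3, le_trans ?_ h4⟩
  norm_cast
  rw [← Set.ncard_coe_finset]
  refine Set.ncard_le_ncard ?_ (Finset.finite_toSet _)
  rintro n ⟨hn1, hn2, hn3, hn4⟩
  by_contra hn5
  rw [Finset.mem_coe] at hn5
  obtain ⟨k1, k2⟩ := h5 n hn1 hn2 (by
    rintro p hp ⟨i, hi, hi2⟩
    exact hn3 p hp i hi hi2) hn5
  refine hn4 ⟨k1, fun a ha => ⟨?_, (k2 a ha).2⟩⟩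
  rcases (k2 a ha).1 with k3 | k3
  · exact Or.inl k3
  · right
    have hfin : {r : ℕ | (∃ x : ℕ, 1 ≤ x ∧ ipr a x = r) ∧ 2 * r ≤ N ∧
        ∀ p : ℕ, p.Prime → p ∣ n - r → Real.log N ^ C < (p : ℝ)}.Finite := by
      refine (Set.finite_lt_nat n).subset ?_
      rintro r ⟨_, hr, _⟩
      show r < n
      omega
    rw [Set.ncard_eq_toFinset_card _ hfin]
    exact k3 hfin.toFinset fun r hr => by simpa using hr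

end Pool.Agent.Lib.MP_e3f158_nt.TT
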